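import Pool.Agent.H41.Transp

set_option autoImplicit false

namespace Pool.Agent.Results.MP_ed2ca9_lc.LogLower

open Pool.Agent.H41.Transp

/-- Logarithmic lower bound on the weak competitive ratio. With t = 1, m = 2^k, a i = 4 * 2^k and
c i = a i + 1 the hypotheses hold, so the ratio is unbounded with one extra server per site. -/
theorem result (m : ℕ) (a c : Fin m → ℕ) (t α k : ℕ) (hm : 0 < m) (ht : 0 < t)
    (hc : ∀ i, c i ≤ a i + t) (hα : ∀ i, α ≤ a i) (hk : 4 * t * m ≤ α * (m / 2 ^ k)) :
    ENNReal.ofReal (1 + k / 4) ≤ Rstar a c :=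
  main a c t α k hm ht hc hα hk

end Pool.Agent.Results.MP_ed2ca9_lc.LogLower
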